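import Mathlib
import Pool.Agent.Y303.EJ.W
import Pool.Agent.Y500.SK.Ener
import Pool.Agent.Y907.EJ.End

/-!
# Project EJ: the product of the weak and of the strong solution
-/

open Set Filter Topology MeasureTheory Metric

set_option autoImplicit false

namespace Pool.Agent.Y484.EJ

open Pool.Agent.Y5 (E3)
open Pool.Agent.Y303.SK
open Pool.Agent.Y303.EJ
open Pool.Agent.Y500.SK (lap dirf_eq lap_memLp cpt_of_zero adv_memLp lap_le)
open Pool.Agent.Y907.EJ (lip_end ipr_cs ipr_nonneg)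

/-- fields with values of bounded norm, zero off a ball -/
theorem ipr_le {f : E3 → E3} {K R : ℝ} (hK : ∀ x, ‖f x‖ ≤ K)
    (h0 : ∀ x ∉ closedBall (0 : E3) R, f x = 0) :
    ipr f f ≤ K ^ 2 * volume.real (closedBall (0 : E3) R) := by
  unfold ipr
  rw [← setIntegral_eq_integral_of_forall_compl_eq_zero (s := closedBall (0 : E3) R)
    (fun x hx => by rw [h0 x hx]; simp)]
  have h1 := norm_setIntegral_le_of_norm_le_const (μ := (volume : Measure E3))
    (s := closedBall (0 : E3) R) (f := fun x => inner ℝ (f x) (f x)) (C := K ^ 2)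
    measure_closedBall_lt_top (fun x _ => by
      rw [Real.norm_eq_abs, real_inner_self_eq_norm_sq, abs_of_nonneg (by positivity)]
      exact pow_le_pow_left₀ (norm_nonneg _) (hK x) 2)
  exact (le_abs_self _).trans h1

/-- bounds for the strong solution -/
theorem ubd {ι : Type} {Ω : Set E3} {ν : ℝ} {e : ι → E3 → E3} {σ : ι → ι} {s : ι → ℝ}
    {T : ℝ} {u : ℝ → E3 → E3} (hb : Bornology.IsBounded Ω) (hU : Str Ω ν e σ s T u) {T₁ : ℝ}
    (hT₁ : T₁ < T) : ∃ C : ℝ, 0 ≤ C ∧ ∀ τ ∈ Icc 0 T₁, ipr (u τ) (u τ) ≤ C ^ 2 ∧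
      ipr (lap (u τ)) (lap (u τ)) ≤ C ^ 2 ∧ ipr (conv (u τ)) (conv (u τ)) ≤ C ^ 2 := by
  obtain ⟨R, hR⟩ := hb.subset_closedBall (0 : E3)
  obtain ⟨M0, hM0⟩ := hU.der 0 T₁ hT₁
  obtain ⟨M1, hM1⟩ := hU.der 1 T₁ hT₁
  obtain ⟨M2, hM2⟩ := hU.der 2 T₁ hT₁
  set V := volume.real (closedBall (0 : E3) R) with hV
  have hV0 : 0 ≤ V := by rw [hV]; positivity
  have hle : ∀ K : ℝ, K ^ 2 * V ≤ (|K| * √V) ^ 2 := by
    intro K
    rw [mul_pow, sq_abs, Real.sq_sqrt hV0]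
  set C := |M0| * √V + |3 * M2| * √V + |M1 * M0| * √V with hC
  have hC0 : 0 ≤ C := by rw [hC]; positivity
  refine ⟨C, hC0, fun τ hτ => ?_⟩
  have hτT : τ ∈ Ico 0 T := ⟨hτ.1, hτ.2.trans_lt hT₁⟩
  have hz : ∀ x ∉ closedBall (0 : E3) R, u τ x = 0 := fun x hx =>
    hU.sol.zero τ hτT x fun h => hx (hR h)
  have hts : tsupport (u τ) ⊆ closedBall (0 : E3) R := by
    refine closure_minimal (fun x hx => ?_) isClosed_closedBall
    by_contra h
    exact hx (hz x h)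
  have hz1 : ∀ x ∉ closedBall (0 : E3) R, fderiv ℝ (u τ) x = 0 := fun x hx =>
    image_eq_zero_of_notMem_tsupport fun h => hx (hts (tsupport_fderiv_subset ℝ h))
  have hz2 : ∀ x ∉ closedBall (0 : E3) R, fderiv ℝ (fderiv ℝ (u τ)) x = 0 := fun x hx =>
    image_eq_zero_of_notMem_tsupport fun h =>
      hx (hts (tsupport_fderiv_subset ℝ (tsupport_fderiv_subset ℝ h)))
  have b0 : ∀ x, ‖u τ x‖ ≤ M0 := fun x => by
    have := hM0 τ hτ x
    rwa [norm_iteratedFDeriv_zero] at this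
  have b1 : ∀ x, ‖fderiv ℝ (u τ) x‖ ≤ M1 := fun x => by
    have := hM1 τ hτ x
    rwa [norm_iteratedFDeriv_one] at this
  have b2 : ∀ x, ‖fderiv ℝ (fderiv ℝ (u τ)) x‖ ≤ M2 := fun x => by
    have := hM2 τ hτ x
    rwa [← norm_iteratedFDeriv_fderiv, norm_iteratedFDeriv_one] at this
  have hM00 : 0 ≤ M0 := (norm_nonneg _).trans (b0 0)
  have hM10 : 0 ≤ M1 := (norm_nonneg _).trans (b1 0)
  have hsq : 0 ≤ √V := Real.sqrt_nonneg _
  have p1 : 0 ≤ |M0| * √V := by positivity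
  have p2 : 0 ≤ |3 * M2| * √V := by positivity
  have p3 : 0 ≤ |M1 * M0| * √V := by positivity
  refine ⟨?_, ?_, ?_⟩
  · refine (ipr_le b0 hz).trans ((hle M0).trans ?_)
    exact pow_le_pow_left₀ p1 (by rw [hC]; linarith) 2
  · refine (ipr_le (K := 3 * M2) (R := R) (fun x => lap_le x M2 (b2 x)) fun x hx => ?_).trans
      ((hle _).trans ?_)
    · unfold lap
      rw [hz2 x hx]
      simp
    · exact pow_le_pow_left₀ p2 (by rw [hC]; linarith) 2
  · refine (ipr_le (K := M1 * M0) (R := R) (fun x => ?_) fun x hx => ?_).trans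
      ((hle _).trans ?_)
    · unfold conv
      exact (ContinuousLinearMap.le_opNorm _ _).trans
        (mul_le_mul (b1 x) (b0 x) (norm_nonneg _) hM10)
    · unfold conv
      rw [hz1 x hx]
      simp
    · exact pow_le_pow_left₀ p3 (by rw [hC]; linarith) 2

theorem nk_nonneg (k : ℕ) (f : E3 → E3) : 0 ≤ nk k f :=
  Real.iSup_nonneg fun _ => norm_nonneg _

theorem gg_nonneg (G : E3 → Fin 3 → E3) : 0 ≤ gg G :=
  integral_nonneg fun _ => Finset.sum_nonneg fun _ _ => by positivity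

/-- an invariant finite set -/
theorem sum_inv {ι : Type} [DecidableEq ι] {σ : ι → ι} {s : ι → ℝ} (hi : ∀ i, σ (σ i) = i)
    (hs : ∀ i, s (σ i) = -s i) (z y : ι → ℝ) (F : Finset ι) (hF : ∀ i ∈ F, σ i ∈ F) :
    ∑ i ∈ F, (s i * z (σ i) * y i + z i * (s i * y (σ i))) = 0 := by
  rw [Finset.sum_add_distrib]
  have h1 : ∑ i ∈ F, s i * z (σ i) * y i = ∑ i ∈ F, -(z i * (s i * y (σ i))) := by
    refine Finset.sum_nbij' σ σ hF hF (fun i _ => hi i) (fun i _ => hi i) fun i _ => ?_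
    rw [hi, hs]
    ring
  rw [h1, Finset.sum_neg_distrib]
  ring

theorem tendsto_of_hasSum {ι : Type} {f : ι → ℝ} {a : ℝ} (h : HasSum f a) :
    Tendsto (fun F : Finset ι => ∑ i ∈ F, f i) atTop (𝓝 a) := by
  rwa [HasSum, SummationFilter.unconditional_filter] at h

/-- W5 -/
theorem t_W5 (h2 : S_W2) (h3 : S_W3) (h4 : S_W4) (hp : S_PR) (hwc : S_WC) : S_W5 := by
  intro Ω ν ι e σ s T T' u v G hΩ hb hν hU hT' hTT' hV t ht htT
  classical
  have hcι := hU.co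
  have hS := hU.skew
  obtain ⟨T₁, hT₁⟩ : ∃ T₁, T₁ = (t + T) / 2 := ⟨_, rfl⟩
  have htT₁ : t < T₁ := by rw [hT₁]; linarith
  have hT₁T : T₁ < T := by rw [hT₁]; linarith
  obtain ⟨C, hC0, hC⟩ := ubd hb hU hT₁T
  have hce : ∀ j, ContDiff ℝ 1 (e j) := fun j =>
    (hS.field j).smooth.of_le (by exact_mod_cast le_top)
  have hu2 : ∀ τ ∈ Ico 0 T, ContDiff ℝ 2 (u τ) := fun τ hτ =>
    (hU.smooth τ hτ).of_le (by
      change ((2 : ℕ∞) : WithTop ℕ∞) ≤ ((⊤ : ℕ∞) : WithTop ℕ∞)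
      exact_mod_cast le_top)
  have hcpt : ∀ τ ∈ Ico 0 T, HasCompactSupport (u τ) := fun τ hτ =>
    cpt_of_zero hb (hU.sol.zero τ hτ)
  have hen : ∀ i, ipr (e i) (e i) ≤ 1 ^ 2 := fun i => by
    rw [one_pow]
    exact ((hS.orth i i).1 rfl).le
  have hem : ∀ i, MemLp (e i) 2 volume := fun i => Pool.Agent.Y500.SK.CS.memLp (hS.field i)
  have hdl : ∀ i, ∀ τ ∈ Ico 0 T, dirf (u τ) (e i) = -ipr (lap (u τ)) (e i) := fun i τ hτ =>
    dirf_eq (u τ) (e i) (hu2 τ hτ) (hce i) (hS.field i).cpt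
  have hlm : ∀ τ ∈ Ico 0 T, MemLp (lap (u τ)) 2 volume := fun τ hτ =>
    lap_memLp (hu2 τ hτ) (hcpt τ hτ)
  have hcm : ∀ τ ∈ Ico 0 T, MemLp (conv (u τ)) 2 volume := fun τ hτ =>
    adv_memLp (hu2 τ hτ) (hcpt τ hτ)
  -- the coefficients of the strong solution
  have hz : ∀ i, IntervalIntegrable (fun τ => s i * ipr (u τ) (e (σ i)) - ν * dirf (u τ) (e i) -
      adv (u τ) (u τ) (e i)) volume 0 t ∧ ∀ r ∈ Icc 0 t, ipr (u r) (e i) = ipr (u 0) (e i) +
      ∫ τ in (0 : ℝ)..r, (s i * ipr (u τ) (e (σ i)) - ν * dirf (u τ) (e i) -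
        adv (u τ) (u τ) (e i)) := by
    intro i
    obtain ⟨g, hg, hgu, hgi, hge⟩ := lip_end (f := fun τ => ipr (u τ) (e i))
      (F := fun τ => s i * ipr (u τ) (e (σ i)) - ν * dirf (u τ) (e i) - adv (u τ) (u τ) (e i))
      (C := |s i| * (C * 1) + ν * (C * 1) + C * 1) (T := T₁) (by positivity)
      (fun τ hτ => (hU.sol.eqn i τ ⟨hτ.1, hτ.2.trans hT₁T⟩).mono
        (Ico_subset_Ico_right hT₁T.le))
      (fun τ hτ => by
        have hτ' : τ ∈ Ico 0 T := ⟨hτ.1, hτ.2.trans hT₁T⟩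
        obtain ⟨c1, c2, c3⟩ := hC τ ⟨hτ.1, hτ.2.le⟩
        have k1 := ipr_cs (hU.sol.inH τ hτ').1 (hem (σ i)) hC0 zero_le_one c1 (hen (σ i))
        have k2 := ipr_cs (hlm τ hτ') (hem i) hC0 zero_le_one c2 (hen i)
        have k3 : |adv (u τ) (u τ) (e i)| ≤ C * 1 :=
          ipr_cs (hcm τ hτ') (hem i) hC0 zero_le_one c3 (hen i)
        rw [hdl i τ hτ']
        calc |s i * ipr (u τ) (e (σ i)) - ν * -ipr (lap (u τ)) (e i) - adv (u τ) (u τ) (e i)|
            ≤ |s i * ipr (u τ) (e (σ i)) - ν * -ipr (lap (u τ)) (e i)| +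
              |adv (u τ) (u τ) (e i)| := abs_sub _ _
          _ ≤ (|s i * ipr (u τ) (e (σ i))| + |ν * -ipr (lap (u τ)) (e i)|) +
              |adv (u τ) (u τ) (e i)| := by
              gcongr
              exact abs_sub _ _
          _ ≤ _ := by
              rw [abs_mul, abs_mul, abs_neg, abs_of_pos hν]
              gcongr)
    refine ⟨?_, fun r hr => ?_⟩
    · rw [intervalIntegrable_iff_integrableOn_Ioo_of_le ht.1]
      exact hgi.mono_set (Ioo_subset_Ioo_right htT₁.le)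
    · have e1 := hge r ⟨hr.1, hr.2.trans htT₁.le⟩
      rw [hgu r ⟨hr.1, hr.2.trans_lt htT₁⟩, hgu 0 ⟨le_rfl, ht.1.trans_lt htT₁⟩] at e1
      exact e1
  have hy : ∀ i, IntervalIntegrable (fun τ => s i * ipr (v τ) (e (σ i)) - ν * gf (G τ) (e i) -
      av (v τ) (G τ) (e i)) volume 0 t ∧ ∀ r ∈ Icc 0 t, ipr (v r) (e i) = ipr (v 0) (e i) +
      ∫ τ in (0 : ℝ)..r, (s i * ipr (v τ) (e (σ i)) - ν * gf (G τ) (e i) -
        av (v τ) (G τ) (e i)) := by
    intro i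
    refine ⟨?_, fun r hr => hV.eqn i r ⟨hr.1, hr.2.trans ht.2⟩⟩
    rw [intervalIntegrable_iff_integrableOn_Ioo_of_le ht.1]
    exact (hV.int i).mono_set (Ioo_subset_Ioo_right ht.2)
  have hpr := fun i => hp t (fun τ => ipr (u τ) (e i)) _ (fun τ => ipr (v τ) (e i)) _ ht.1
    (hz i).1 (hy i).1 (hz i).2 (hy i).2
  -- the norm of the weak solution
  obtain ⟨N, hN⟩ : ∃ N, N = ipr (v 0) (v 0) := ⟨_, rfl⟩
  have hvN : ∀ τ ∈ Icc 0 T', ipr (v τ) (v τ) ≤ N := by
    intro τ hτ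
    have e1 := hV.energy τ hτ
    have e2 : 0 ≤ ∫ r in (0 : ℝ)..τ, gg (G r) :=
      intervalIntegral.integral_nonneg hτ.1 fun r _ => gg_nonneg _
    have e3 : 0 ≤ 2 * ν * ∫ r in (0 : ℝ)..τ, gg (G r) := by positivity
    rw [hN]
    linarith
  obtain ⟨X, hX0, hX⟩ := h4 Ω hΩ hb
  obtain ⟨b0, hb0, hb0'⟩ := hU.cfk 0 t htT
  obtain ⟨b1, hb1, hb1'⟩ := hU.cfk 1 t htT
  -- the finite sums
  let Fs : Finset ι → Finset ι := fun F => F ∪ F.image σ
  have hFs : ∀ F, ∀ i ∈ Fs F, σ i ∈ Fs F := by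
    intro F i hi
    rcases Finset.mem_union.mp hi with h | h
    · exact Finset.mem_union_right _ (Finset.mem_image_of_mem σ h)
    · obtain ⟨j, hj, rfl⟩ := Finset.mem_image.mp h
      rw [hS.inv]
      exact Finset.mem_union_left _ hj
  have hFt : Tendsto Fs atTop atTop :=
    tendsto_atTop_mono (fun F => Finset.subset_union_left) tendsto_id
  let f : ι → ℝ → ℝ := fun i τ => (-(ν * dirf (u τ) (e i)) - adv (u τ) (u τ) (e i)) *
    ipr (v τ) (e i) + ipr (u τ) (e i) * (-(ν * gf (G τ) (e i)) - av (v τ) (G τ) (e i))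
  have hSf : ∀ F τ, ∑ i ∈ Fs F, ((s i * ipr (u τ) (e (σ i)) - ν * dirf (u τ) (e i) -
      adv (u τ) (u τ) (e i)) * ipr (v τ) (e i) + ipr (u τ) (e i) * (s i * ipr (v τ) (e (σ i)) -
      ν * gf (G τ) (e i) - av (v τ) (G τ) (e i))) = ∑ i ∈ Fs F, f i τ := by
    intro F τ
    have e1 := sum_inv hS.inv hS.skew (fun i => ipr (u τ) (e i)) (fun i => ipr (v τ) (e i))
      (Fs F) (hFs F)
    rw [← sub_eq_zero, ← e1, ← Finset.sum_sub_distrib]
    refine Finset.sum_congr rfl fun i _ => ?_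
    simp only [f]
    ring
  have hSi : ∀ F, Integrable (fun τ => ∑ i ∈ Fs F, f i τ) (volume.restrict (Ioc 0 t)) := by
    intro F
    have e1 : Integrable (fun τ => ∑ i ∈ Fs F, ((s i * ipr (u τ) (e (σ i)) -
      ν * dirf (u τ) (e i) - adv (u τ) (u τ) (e i)) * ipr (v τ) (e i) + ipr (u τ) (e i) *
      (s i * ipr (v τ) (e (σ i)) - ν * gf (G τ) (e i) - av (v τ) (G τ) (e i))))
      (volume.restrict (Ioc 0 t)) := by
      refine integrable_finsetSum _ fun i _ => ?_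
      exact ((intervalIntegrable_iff_integrableOn_Ioc_of_le ht.1).1 (hpr i).1)
    exact e1.congr (ae_of_all _ fun τ => hSf F τ)
  have hSv : ∀ F, ∑ i ∈ Fs F, ipr (u t) (e i) * ipr (v t) (e i) =
      ∑ i ∈ Fs F, ipr (u 0) (e i) * ipr (v 0) (e i) + ∫ τ in Ioc 0 t, ∑ i ∈ Fs F, f i τ := by
    intro F
    have e1 : ∫ τ in Ioc 0 t, ∑ i ∈ Fs F, f i τ = ∑ i ∈ Fs F, ∫ τ in Ioc 0 t,
        ((s i * ipr (u τ) (e (σ i)) - ν * dirf (u τ) (e i) - adv (u τ) (u τ) (e i)) *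
        ipr (v τ) (e i) + ipr (u τ) (e i) * (s i * ipr (v τ) (e (σ i)) - ν * gf (G τ) (e i) -
        av (v τ) (G τ) (e i))) := by
      rw [← integral_finsetSum]
      · exact integral_congr_ae (ae_of_all _ fun τ => (hSf F τ).symm)
      · intro i _
        exact ((intervalIntegrable_iff_integrableOn_Ioc_of_le ht.1).1 (hpr i).1)
    rw [e1, ← Finset.sum_add_distrib]
    refine Finset.sum_congr rfl fun i _ => ?_
    have e2 := (hpr i).2
    rw [intervalIntegral.integral_of_le ht.1] at e2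
    exact e2
  -- almost all times
  have hae : ∀ᵐ τ ∂(volume.restrict (Ioc 0 t)), τ ∈ Ioo 0 t ∧ H1w Ω (v τ) (G τ) := by
    rw [← restrict_Ioo_eq_restrict_Ioc]
    have e1 := ae_restrict_of_ae_restrict_of_subset (Ioo_subset_Ioo_right ht.2) hV.grad
    filter_upwards [e1, ae_restrict_mem measurableSet_Ioo] with τ q1 q2
    exact ⟨q2, q1⟩
  have hgi : IntegrableOn (fun τ => gg (G τ)) (Ioc 0 t) volume := by
    rw [integrableOn_Ioc_iff_integrableOn_Ioo]
    exact hV.diss.mono_set (Ioo_subset_Ioo_right ht.2)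
  obtain ⟨K1, hK1⟩ : ∃ K1, K1 = ν * (C * √N) + C * √N := ⟨_, rfl⟩
  obtain ⟨K2, hK2⟩ : ∃ K2, K2 = ν * (X * ∑' i, b1 i) + X * (∑' i, b0 i) * √N := ⟨_, rfl⟩
  have hbi : Integrable (fun τ => K1 + K2 * (1 + gg (G τ))) (volume.restrict (Ioc 0 t)) := by
    have e1 : Integrable (fun τ => K1 + K2 * (1 + gg (G τ))) (volume.restrict (Ioc 0 t)) :=
      (integrable_const K1).add (((integrable_const (1 : ℝ)).add hgi).const_mul K2)
    exact e1
  have key : ∀ τ ∈ Ioo 0 t, H1w Ω (v τ) (G τ) →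
      (HasSum (fun i => f i τ) (-(2 * ν * gf (G τ) (u τ) + ipr (conv (u τ)) (v τ) +
        av (v τ) (G τ) (u τ)))) ∧ ∀ F : Finset ι, |∑ i ∈ F, f i τ| ≤
          K1 + K2 * (1 + gg (G τ)) := by
    intro τ hτ hH
    have hτT : τ ∈ Ico 0 T := ⟨hτ.1.le, hτ.2.trans htT⟩
    have hτT' : τ ∈ Icc 0 T' := ⟨hτ.1.le, hτ.2.le.trans ht.2⟩
    have hτt : τ ∈ Icc 0 t := ⟨hτ.1.le, hτ.2.le⟩
    obtain ⟨c1, c2, c3⟩ := hC τ ⟨hτ.1.le, (hτ.2.trans htT₁).le⟩
    obtain ⟨l1, l1'⟩ := h3 Ω ι e σ s hΩ hb hcι hS (lap (u τ)) (v τ) (hlm τ hτT) (hV.inH τ hτT')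
    obtain ⟨l2, l2'⟩ := h3 Ω ι e σ s hΩ hb hcι hS (conv (u τ)) (v τ) (hcm τ hτT)
      (hV.inH τ hτT')
    obtain ⟨w1, w2, -⟩ := h2 Ω (v τ) (u τ) (G τ) hΩ hb hH (hu2 τ hτT) (hcpt τ hτT)
    obtain ⟨x1, x2⟩ := hX ι e hcι hS.field (v τ) (G τ) hH.1 hH.2.1
    have hsm : ∀ k : ℕ, Summable (fun a => |ipr (u τ) (e a)| * nk k (e a)) := by
      intro k
      obtain ⟨bk, hbk, hbk'⟩ := hU.cfk k t htT
      exact Summable.of_nonneg_of_le (fun a => mul_nonneg (abs_nonneg _) (nk_nonneg _ _))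
        (fun a => hbk' τ hτt a) hbk
    obtain ⟨y1, y2⟩ := x2 (fun a => ipr (u τ) (e a)) hsm
    rw [← hU.rep τ hτT] at y1 y2
    have hfi : ∀ i, f i τ = ν * (ipr (lap (u τ)) (e i) * ipr (v τ) (e i)) -
        ipr (conv (u τ)) (e i) * ipr (v τ) (e i) - ν * (ipr (u τ) (e i) * gf (G τ) (e i)) -
        ipr (u τ) (e i) * av (v τ) (G τ) (e i) := by
      intro i
      have q1 : adv (u τ) (u τ) (e i) = ipr (conv (u τ)) (e i) := rfl
      simp only [f]
      rw [hdl i τ hτT, q1]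
      ring
    constructor
    · have q1 := (((l1.mul_left ν).sub l2).sub (y1.mul_left ν)).sub y2
      have q2 : ν * ipr (lap (u τ)) (v τ) - ipr (conv (u τ)) (v τ) - ν * gf (G τ) (u τ) -
          av (v τ) (G τ) (u τ) = -(2 * ν * gf (G τ) (u τ) + ipr (conv (u τ)) (v τ) +
          av (v τ) (G τ) (u τ)) := by
        rw [w2]
        ring
      rw [q2] at q1
      have q3 : (fun i => f i τ) = fun i => ν * (ipr (lap (u τ)) (e i) * ipr (v τ) (e i)) -
          ipr (conv (u τ)) (e i) * ipr (v τ) (e i) - ν * (ipr (u τ) (e i) * gf (G τ) (e i)) -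
          ipr (u τ) (e i) * av (v τ) (G τ) (e i) := funext hfi
      rw [q3]
      exact q1
    · intro F
      have hsN : √(ipr (v τ) (v τ)) ≤ √N := Real.sqrt_le_sqrt (hvN τ hτT')
      have hsl : √(ipr (lap (u τ)) (lap (u τ))) ≤ C := by
        rw [Real.sqrt_le_left hC0]
        exact c2
      have hsc : √(ipr (conv (u τ)) (conv (u τ))) ≤ C := by
        rw [Real.sqrt_le_left hC0]
        exact c3
      have r1 : |∑ i ∈ F, ipr (lap (u τ)) (e i) * ipr (v τ) (e i)| ≤ C * √N :=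
        (l1' F).trans (mul_le_mul hsl hsN (Real.sqrt_nonneg _) hC0)
      have r2 : |∑ i ∈ F, ipr (conv (u τ)) (e i) * ipr (v τ) (e i)| ≤ C * √N :=
        (l2' F).trans (mul_le_mul hsc hsN (Real.sqrt_nonneg _) hC0)
      have hb1n : ∀ i, 0 ≤ b1 i := fun i =>
        (mul_nonneg (abs_nonneg _) (nk_nonneg _ _)).trans (hb1' τ hτt i)
      have hb0n : ∀ i, 0 ≤ b0 i := fun i =>
        (mul_nonneg (abs_nonneg _) (nk_nonneg _ _)).trans (hb0' τ hτt i)
      have hsg : √(gg (G τ)) ≤ 1 + gg (G τ) := by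
        have q1 := Real.sq_sqrt (gg_nonneg (G τ))
        nlinarith [sq_nonneg (√(gg (G τ)) - 1), Real.sqrt_nonneg (gg (G τ))]
      have hgg0 : 0 ≤ gg (G τ) := gg_nonneg (G τ)
      have r3 : |∑ i ∈ F, ipr (u τ) (e i) * gf (G τ) (e i)| ≤
          X * (∑' i, b1 i) * (1 + gg (G τ)) := by
        calc |∑ i ∈ F, ipr (u τ) (e i) * gf (G τ) (e i)|
            ≤ ∑ i ∈ F, |ipr (u τ) (e i) * gf (G τ) (e i)| := Finset.abs_sum_le_sum_abs _ _
          _ ≤ ∑ i ∈ F, b1 i * (X * √(gg (G τ))) := by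
              refine Finset.sum_le_sum fun i _ => ?_
              rw [abs_mul]
              calc |ipr (u τ) (e i)| * |gf (G τ) (e i)|
                  ≤ |ipr (u τ) (e i)| * (X * nk 1 (e i) * √(gg (G τ))) :=
                    mul_le_mul_of_nonneg_left (x1 i).1 (abs_nonneg _)
                _ = (|ipr (u τ) (e i)| * nk 1 (e i)) * (X * √(gg (G τ))) := by ring
                _ ≤ b1 i * (X * √(gg (G τ))) :=
                    mul_le_mul_of_nonneg_right (hb1' τ hτt i) (by positivity)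
          _ = (∑ i ∈ F, b1 i) * (X * √(gg (G τ))) := by rw [Finset.sum_mul]
          _ ≤ (∑' i, b1 i) * (X * (1 + gg (G τ))) := by
              refine mul_le_mul (hb1.sum_le_tsum F fun i _ => hb1n i)
                (mul_le_mul_of_nonneg_left hsg hX0) (by positivity) (tsum_nonneg hb1n)
          _ = X * (∑' i, b1 i) * (1 + gg (G τ)) := by ring
      have r4 : |∑ i ∈ F, ipr (u τ) (e i) * av (v τ) (G τ) (e i)| ≤
          X * (∑' i, b0 i) * √N * (1 + gg (G τ)) := by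
        calc |∑ i ∈ F, ipr (u τ) (e i) * av (v τ) (G τ) (e i)|
            ≤ ∑ i ∈ F, |ipr (u τ) (e i) * av (v τ) (G τ) (e i)| :=
              Finset.abs_sum_le_sum_abs _ _
          _ ≤ ∑ i ∈ F, b0 i * (X * (√N * (1 + gg (G τ)))) := by
              refine Finset.sum_le_sum fun i _ => ?_
              rw [abs_mul]
              calc |ipr (u τ) (e i)| * |av (v τ) (G τ) (e i)|
                  ≤ |ipr (u τ) (e i)| *
                    (X * nk 0 (e i) * (√(ipr (v τ) (v τ)) * √(gg (G τ)))) :=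
                    mul_le_mul_of_nonneg_left (x1 i).2 (abs_nonneg _)
                _ = (|ipr (u τ) (e i)| * nk 0 (e i)) *
                    (X * (√(ipr (v τ) (v τ)) * √(gg (G τ)))) := by ring
                _ ≤ b0 i * (X * (√N * (1 + gg (G τ)))) := by
                    refine mul_le_mul (hb0' τ hτt i) ?_ (by positivity) (hb0n i)
                    refine mul_le_mul_of_nonneg_left ?_ hX0
                    exact mul_le_mul hsN hsg (Real.sqrt_nonneg _) (Real.sqrt_nonneg _)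
          _ = (∑ i ∈ F, b0 i) * (X * (√N * (1 + gg (G τ)))) := by rw [Finset.sum_mul]
          _ ≤ (∑' i, b0 i) * (X * (√N * (1 + gg (G τ)))) :=
              mul_le_mul_of_nonneg_right (hb0.sum_le_tsum F fun i _ => hb0n i) (by positivity)
          _ = X * (∑' i, b0 i) * √N * (1 + gg (G τ)) := by ring
      have r5 : ∑ i ∈ F, f i τ = ν * (∑ i ∈ F, ipr (lap (u τ)) (e i) * ipr (v τ) (e i)) -
          (∑ i ∈ F, ipr (conv (u τ)) (e i) * ipr (v τ) (e i)) -
          ν * (∑ i ∈ F, ipr (u τ) (e i) * gf (G τ) (e i)) -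
          ∑ i ∈ F, ipr (u τ) (e i) * av (v τ) (G τ) (e i) := by
        rw [Finset.mul_sum, Finset.mul_sum, ← Finset.sum_sub_distrib, ← Finset.sum_sub_distrib,
          ← Finset.sum_sub_distrib]
        exact Finset.sum_congr rfl fun i _ => hfi i
      rw [r5]
      have s1 := abs_le.mp r1
      have s2 := abs_le.mp r2
      have s3 := abs_le.mp r3
      have s4 := abs_le.mp r4
      have m1 := mul_le_mul_of_nonneg_left s1.1 hν.le
      have m2 := mul_le_mul_of_nonneg_left s1.2 hν.le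
      have m3 := mul_le_mul_of_nonneg_left s3.1 hν.le
      have m4 := mul_le_mul_of_nonneg_left s3.2 hν.le
      rw [abs_le, hK1, hK2]
      constructor
      · linarith [s2.1, s2.2, s4.1, s4.2]
      · linarith [s2.1, s2.2, s4.1, s4.2]
  -- the limit
  have hlim : ∀ᵐ τ ∂(volume.restrict (Ioc 0 t)), Tendsto (fun F : Finset ι =>
      ∑ i ∈ Fs F, f i τ) atTop (𝓝 (-(2 * ν * gf (G τ) (u τ) + ipr (conv (u τ)) (v τ) +
        av (v τ) (G τ) (u τ)))) := by
    filter_upwards [hae] with τ hτ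
    exact (tendsto_of_hasSum (key τ hτ.1 hτ.2).1).comp hFt
  have hbd : ∀ F, ∀ᵐ τ ∂(volume.restrict (Ioc 0 t)), ‖∑ i ∈ Fs F, f i τ‖ ≤
      K1 + K2 * (1 + gg (G τ)) := by
    intro F
    filter_upwards [hae] with τ hτ
    exact (key τ hτ.1 hτ.2).2 (Fs F)
  have hmeas : AEStronglyMeasurable (fun τ => -(2 * ν * gf (G τ) (u τ) +
      ipr (conv (u τ)) (v τ) + av (v τ) (G τ) (u τ))) (volume.restrict (Ioc 0 t)) :=
    aestronglyMeasurable_of_tendsto_ae atTop (fun F => (hSi F).1) hlim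
  have hPhi : Integrable (fun τ => -(2 * ν * gf (G τ) (u τ) +
      ipr (conv (u τ)) (v τ) + av (v τ) (G τ) (u τ))) (volume.restrict (Ioc 0 t)) := by
    refine hbi.mono' hmeas ?_
    filter_upwards [hae] with τ hτ
    have q1 := tendsto_of_hasSum (key τ hτ.1 hτ.2).1
    refine le_of_tendsto q1.norm (Eventually.of_forall fun F => ?_)
    exact (key τ hτ.1 hτ.2).2 F
  refine ⟨?_, ?_⟩
  · rw [intervalIntegrable_iff_integrableOn_Ioc_of_le ht.1]
    have q1 := hPhi.neg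
    refine q1.congr (ae_of_all _ fun τ => ?_)
    simp
  · have hdc := tendsto_integral_filter_of_dominated_convergence (l := (atTop : Filter (Finset ι)))
      (F := fun F τ => ∑ i ∈ Fs F, f i τ) (fun τ => K1 + K2 * (1 + gg (G τ)))
      (Eventually.of_forall fun F => (hSi F).1) (Eventually.of_forall hbd) hbi hlim
    have h0 : (0 : ℝ) ∈ Ico 0 T := ⟨le_rfl, ht.1.trans_lt htT⟩
    have j1 := (tendsto_of_hasSum (h3 Ω ι e σ s hΩ hb hcι hS (u t) (v t)
      (hU.sol.inH t ⟨ht.1, htT⟩).1 (hV.inH t ht)).1).comp hFt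
    have j2 := (tendsto_of_hasSum (h3 Ω ι e σ s hΩ hb hcι hS (u 0) (v 0)
      (hU.sol.inH 0 h0).1 (hV.inH 0 ⟨le_rfl, hT'.le⟩)).1).comp hFt
    have j3 := j2.add hdc
    have j4 : Tendsto (fun F : Finset ι => ∑ i ∈ Fs F, ipr (u t) (e i) * ipr (v t) (e i)) atTop
        (𝓝 (ipr (u 0) (v 0) + ∫ τ in Ioc 0 t, -(2 * ν * gf (G τ) (u τ) +
          ipr (conv (u τ)) (v τ) + av (v τ) (G τ) (u τ)))) :=
      j3.congr fun F => (hSv F).symm
    have j5 := tendsto_nhds_unique j1 j4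
    rw [j5, integral_neg, intervalIntegral.integral_of_le ht.1, sub_eq_add_neg]

end Pool.Agent.Y484.EJ
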